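import Pool.Agent.Q36.GW.Cv

/-!
Products with a curve factor: the geometric genus.
-/

set_option autoImplicit false
set_option linter.overlappingInstances false
set_option linter.unusedSectionVars false

open Polynomial FF IsDedekindDomain IntermediateField
open Pool.Agent.W602.GT Pool.Agent.W603.LV Pool.Agent.W619.PQ Pool.Agent.W619.PL
  Pool.Agent.W619.TW Pool.Agent.W619.X Pool.Agent.W619.Y Q36.PT Q36.SD Q36.HB Q36.GV

namespace Q36.GW

section

variable {k L M : Type} [Field k] [CharZero k] [IsAlgClosed k] [Field L] [Field M]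
  [Algebra k L] [Algebra k M] [Algebra L M] [IsScalarTower k L M] [FiniteDimensional L M]
  [Algebra.EssFiniteType k L] {s : ℕ} {e : Fin (s + 1) → ℕ}
  (F : Fin (s + 1) → IntermediateField k M) [∀ i, Algebra.EssFiniteType k (F i)]

/-- **The relative traces vanish** if the geometric genus is zero. -/
theorem rel_zero (hM : Algebra.trdeg k M = (∑ i, e i : ℕ))
    (hd : ∀ i, Algebra.trdeg k (F i) = e i) {m : Fin s → ℕ}
    (hV : ∀ i : Fin s, CanSep k (F i.succ) (e i.succ) (m i)) {Ω : Type} [Field Ω] [IsAlgClosed Ω]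
    [Algebra k Ω] [Algebra L Ω] [IsScalarTower k L Ω]
    (hcov : Cov (L := L) (fun i : Fin s => F i.succ) Ω m)
    (hneg : ¬ PlurigenusPos k L (∑ i, e i) 1)
    (t : ∀ i, Fin (e i) → F i) (ht : ∀ i, IsTranscendenceBasis k (t i))
    {D : ∀ i, Fin (e i) → Derivation k (F i) (F i)}
    (hD : ∀ i a b, D i a (t i b) = if a = b then 1 else 0)
    (E : Fin (∑ i, e i) → Derivation k L L) (E' : Fin (∑ i, e i) → Derivation k M M)
    (hE' : ∀ a z, E' a (algebraMap L M z) = algebraMap L M (E a z))
    {f0 : F 0} (hf0 : f0 ∈ CanF k (e 0) (D 0)) :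
    Algebra.trace (mid L fun i : Fin s => F i.succ) M
      ((Matrix.of fun a b => E' a (coords F t b)).det * (f0 : M)) = 0 := by
  classical
  have hessM : Algebra.EssFiniteType k M := ess_up k L M
  have hn : Algebra.trdeg k L = (∑ i, e i : ℕ) := trdeg_below (K := M) hM
  refine elim_cov (fun i : Fin s => F i.succ) hcov (fun i => CanF k (e i.succ) (D i.succ))
    (fun i => hV i (t i.succ) (D i.succ) (ht i.succ) (hD i.succ)) _ fun f hf => ?_
  have h1 : Algebra.trace (mid L fun i : Fin s => F i.succ) M
      ((Matrix.of fun a b => E' a (coords F t b)).det * (f0 : M)) *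
        ∏ i, incl L (fun i : Fin s => F i.succ) i (f i) =
      Algebra.trace (mid L fun i : Fin s => F i.succ) M
        ((Matrix.of fun a b => E' a (coords F t b)).det * ((f0 : M) * ∏ i, (f i : M))) := by
    have h2 : (∏ i, (f i : M)) = ((∏ i, incl L (fun i : Fin s => F i.succ) i (f i) :
        mid L fun i : Fin s => F i.succ) : M) := by
      rw [← IntermediateField.coe_val, map_prod]
      rfl
    have h3 : (Matrix.of fun a b => E' a (coords F t b)).det * ((f0 : M) * ∏ i, (f i : M)) =
        (∏ i, incl L (fun i : Fin s => F i.succ) i (f i)) •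
          ((Matrix.of fun a b => E' a (coords F t b)).det * (f0 : M)) := by
      rw [Algebra.smul_def, h2]
      change _ = ((∏ i, incl L (fun i : Fin s => F i.succ) i (f i) :
        mid L fun i : Fin s => F i.succ) : M) * _
      ring
    rw [h3, map_smul, smul_eq_mul, mul_comm]
  rw [h1, Algebra.trace_trace]
  let g : ∀ i, F i := Fin.cons (α := fun i => F i) f0 f
  obtain ⟨ω, h4, h5, h6⟩ := trace_pluri (K := L) hn (wdg F t g) (wdg_pluri F t g)
    (fun Q hQ => wdg_reg' F hd hM ht hD (f := g) (fun i => by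
      refine Fin.cases ?_ (fun i => ?_) i
      · exact hf0
      · exact hf i) Q hQ)
  by_contra hne
  refine hneg ⟨ω, h4, h5, E, ?_⟩
  rw [h6 E E' hE']
  unfold wdg
  rw [Fin.prod_univ_succ, mul_comm]
  exact hne

theorem ess_mid (W : Fin s → IntermediateField k M) : Algebra.EssFiniteType k (mid L W) :=
  Algebra.EssFiniteType.comp k L (mid L W)

theorem towM (S : IntermediateField L M) : IsScalarTower k S M :=
  IsScalarTower.of_algebraMap_eq fun _ => rfl

end

section

variable {k L M : Type} [Field k] [CharZero k] [IsAlgClosed k] [Field L] [Field M]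
  [Algebra k L] [Algebra k M] [Algebra L M] [IsScalarTower k L M] [FiniteDimensional L M]
  [Algebra.EssFiniteType k L] {s : ℕ} {d : Fin s → ℕ}
  (F : Fin (s + 1) → IntermediateField k M) [∀ i, Algebra.EssFiniteType k (F i)]

/-- the product of the other factors, as a subfield of the function field of `X'` -/
abbrev baseIn (L : Type) [Field L] [Algebra k L] [Algebra L M] [IsScalarTower k L M]
    (W : Fin s → IntermediateField k M) : IntermediateField k (mid L W) :=
  (⨆ i, W i).comap ((mid L W).val.restrictScalars k)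

/-- **The geometric genus is positive**, curve times varieties. -/
theorem genus_curve [hF0 : IsFF k (F 0)] (hM : Algebra.trdeg k M = (∑ i, dims 1 d i : ℕ))
    (hsup : ⨆ i, F i = ⊤)
    (hd : ∀ i, Algebra.trdeg k (F i) = dims 1 d i) {m : Fin s → ℕ}
    (hV : ∀ i : Fin s, CanSep k (F i.succ) (d i) (m i)) {Ω : Type} [Field Ω] [IsAlgClosed Ω]
    [Algebra k Ω] [Algebra L Ω] [IsScalarTower k L Ω]
    (hcov : Cov (L := L) (fun i : Fin s => F i.succ) Ω m)
    (hgz : ¬ GenusZeroOver (baseIn L fun i : Fin s => F i.succ)) :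
    PlurigenusPos k L (∑ i, dims 1 d i) 1 := by
  classical
  by_contra hneg
  apply hgz
  have hn : Algebra.trdeg k L = (∑ i, dims 1 d i : ℕ) := trdeg_below (K := M) hM
  have hto := towM (k := k) (L := L) (M := M) (mid L fun i : Fin s => F i.succ)
  have hn1 : Algebra.trdeg k (mid L fun i : Fin s => F i.succ) = (∑ i, dims 1 d i : ℕ) :=
    Pool.Agent.Y172.trdeg_up (K := L) hn
  obtain ⟨y, E, hy, hE⟩ := Pool.Agent.Y172.exists_crd (k := k) (K := L) hn
  choose E1 hE1 using fun i => Pool.Agent.Y172.exists_lift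
    (L := mid L fun i : Fin s => F i.succ) hn (E i)
  choose E' hE' using fun i => Pool.Agent.Y172.exists_lift (K := mid L fun i : Fin s => F i.succ)
    (L := M) hn1 (E1 i)
  have hE'L : ∀ i f, E' i (algebraMap L M f) = algebraMap L M (E i f) := by
    intro i f
    have h1 := hE' i (algebraMap L (mid L fun i : Fin s => F i.succ) f)
    rw [hE1] at h1
    exact h1
  have hEd := Pool.Agent.Y172.lift_dual hE hE'L
  choose t D ht hD using fun i => Pool.Agent.Y172.exists_crd (hd i)
  have hbt : IsTranscendenceBasis k (coords F t) :=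
    coords_basis F hM (alg_of_sup' F hsup) t ht
  have hJ : (Matrix.of fun a b => E' a (coords F t b)).det ≠ 0 := jac_ne hbt hEd
  have hD00 : D 0 (0 : Fin 1) (t 0 (0 : Fin 1)) = 1 := by
    have := hD 0 (0 : Fin 1) (0 : Fin 1)
    simpa using this
  have h := genus_rel (L := mid L fun i : Fin s => F i.succ) F hM hsup hd ?_ t ht hD00 E1 E' hE' hJ
    (fun f hf => rel_zero F hM hd (fun i => hV i) hcov hneg t ht hD E E' hE'L
      (canF_curve (ht 0) (hD 0) hf))
  · exact h
  · intro z hz
    have h1 : base F ≤ (mid L fun i : Fin s => F i.succ).restrictScalars k :=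
      iSup_le fun i z hz => le_mid L (fun i : Fin s => F i.succ) i hz
    exact ⟨⟨z, h1 hz⟩, rfl⟩

end

end Q36.GW
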