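import Pool.Agent.Q36.GW.Re

/-!
Products with a curve factor: elimination for the other factors.
-/

set_option autoImplicit false
set_option linter.overlappingInstances false
set_option linter.unusedSectionVars false

open Polynomial FF IsDedekindDomain IntermediateField
open Q36.HB Q36.GV

namespace Q36.GW

section

variable {k L M : Type} [Field k] [CharZero k] [Field L] [Field M]
  [Algebra k L] [Algebra k M] [Algebra L M] [IsScalarTower k L M] [FiniteDimensional L M]
  {s : ℕ} (W : Fin s → IntermediateField k M)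

variable (L) in
/-- the function field of the image of `Z` in the product of `X` and the factors -/
abbrev mid : IntermediateField L M := IntermediateField.adjoin L {z : M | ∃ i, z ∈ W i}

variable (L) in
theorem le_mid (i : Fin s) {z : M} (hz : z ∈ W i) : z ∈ mid L W :=
  IntermediateField.subset_adjoin L _ ⟨i, hz⟩

variable (L) in
/-- the inclusion of the factors -/
def incl (i : Fin s) : W i →ₐ[k] mid L W where
  toFun z := ⟨z, le_mid L W i z.2⟩
  map_one' := Subtype.ext rfl
  map_mul' _ _ := Subtype.ext rfl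
  map_zero' := Subtype.ext rfl
  map_add' _ _ := Subtype.ext rfl
  commutes' _ := Subtype.ext rfl

theorem incl_coe (i : Fin s) (z : W i) : ((incl L W i z : mid L W) : M) = (z : M) := rfl

/-- restriction to the factors -/
def resM {Ω : Type} [Field Ω] [Algebra k Ω] [Algebra L Ω] [IsScalarTower k L Ω] (i : Fin s)
    (σ : mid L W →ₐ[L] Ω) : W i →ₐ[k] Ω :=
  (σ.restrictScalars k).comp (incl L W i)

theorem resM_apply {Ω : Type} [Field Ω] [Algebra k Ω] [Algebra L Ω] [IsScalarTower k L Ω]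
    (i : Fin s) (σ : mid L W →ₐ[L] Ω) (z : W i) : resM W i σ z = σ (incl L W i z) := rfl

theorem resM_inj {Ω : Type} [Field Ω] [Algebra k Ω] [Algebra L Ω] [IsScalarTower k L Ω]
    {σ τ : mid L W →ₐ[L] Ω} (h : ∀ i, resM W i σ = resM W i τ) : σ = τ := by
  ext z
  obtain ⟨z, hz⟩ := z
  induction hz using IntermediateField.adjoin_induction with
  | mem z hz =>
    obtain ⟨i, hi⟩ := hz
    exact congrArg (fun φ : W i →ₐ[k] Ω => φ ⟨z, hi⟩) (h i)
  | algebraMap z => exact (σ.commutes z).trans (τ.commutes z).symm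
  | add a b ha hb h1 h2 =>
    have e : (⟨a + b, add_mem ha hb⟩ : mid L W) = ⟨a, ha⟩ + ⟨b, hb⟩ := rfl
    have h3 : σ (⟨a, ha⟩ + ⟨b, hb⟩) = τ (⟨a, ha⟩ + ⟨b, hb⟩) := by
      rw [map_add, map_add, h1, h2]
    exact h3
  | inv a ha h1 =>
    have h3 : σ (⟨a, ha⟩⁻¹) = τ (⟨a, ha⟩⁻¹) := by rw [map_inv₀, map_inv₀, h1]
    exact h3
  | mul a b ha hb h1 h2 =>
    have h3 : σ (⟨a, ha⟩ * ⟨b, hb⟩) = τ (⟨a, ha⟩ * ⟨b, hb⟩) := by
      rw [map_mul, map_mul, h1, h2]
    exact h3

/-- the restriction of an embedding of `M` -/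
def toMid {Ω : Type} [Field Ω] [Algebra L Ω] (τ : M →ₐ[L] Ω) : mid L W →ₐ[L] Ω :=
  τ.comp (mid L W).val

theorem resM_toMid {Ω : Type} [Field Ω] [Algebra k Ω] [Algebra L Ω] [IsScalarTower k L Ω]
    (i : Fin s) (τ : M →ₐ[L] Ω) : resM W i (toMid W τ) = resV W i τ := rfl

theorem exists_ext {Ω : Type} [Field Ω] [IsAlgClosed Ω] [Algebra L Ω] (σ : mid L W →ₐ[L] Ω) :
    ∃ τ : M →ₐ[L] Ω, toMid W τ = σ := by
  obtain ⟨τ, hτ⟩ := IsAlgClosed.surjective_domRestrict_of_isAlgebraic (K := L)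
    (L := mid L W) (M := Ω) (E := M) σ
  exact ⟨τ, by rw [← hτ]; rfl⟩

/-- **The covering condition.** -/
def Cov (Ω : Type) [Field Ω] [Algebra k Ω] [Algebra L Ω] [IsScalarTower k L Ω] (m : Fin s → ℕ) :
    Prop :=
  ∃ (τ0 : M →ₐ[L] Ω) (K : ∀ i, Finset (W i →ₐ[k] Ω)), (∀ i, resV W i τ0 ∉ K i) ∧
    (∀ i, (K i).card + 1 ≤ m i) ∧
    ∀ τ : M →ₐ[L] Ω, (∀ i, resV W i τ = resV W i τ0) ∨ ∃ i, resV W i τ ∈ K i

/-- **Elimination.** -/
theorem elim_cov {Ω : Type} [Field Ω] [IsAlgClosed Ω] [Algebra k Ω] [Algebra L Ω]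
    [IsScalarTower k L Ω] {m : Fin s → ℕ} (hcov : Cov (L := L) W Ω m)
    (V : ∀ i, Set (W i)) (hV : ∀ i, Sep k (V i) (m i)) (x : mid L W)
    (hrel : ∀ f : ∀ i, W i, (∀ i, f i ∈ V i) →
      Algebra.trace L (mid L W) (x * ∏ i, incl L W i (f i)) = 0) : x = 0 := by
  classical
  have hchar : CharZero L := charZero_of_injective_algebraMap (algebraMap k L).injective
  obtain ⟨τ0, K, h1, h2, h3⟩ := hcov
  have hsep : Algebra.IsSeparable L (mid L W) := inferInstance
  have h4 := elimV (Ω := Ω) V hV (fun i => resM W i) (fun σ => σ x) (fun f hf => by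
    have h5 := hrel f hf
    have h6 := trace_eq_sum_embeddings (K := L) (L := mid L W)
      (x := x * ∏ i, incl L W i (f i)) Ω
    rw [h5, map_zero] at h6
    have h7 : ∑ σ : mid L W →ₐ[L] Ω, σ (x * ∏ i, incl L W i (f i)) = 0 := h6.symm
    rw [← h7]
    refine Finset.sum_congr rfl fun σ _ => ?_
    rw [map_mul, map_prod]
    rfl) (toMid W τ0) K (fun i => h1 i) h2 (fun σ hσ => by
      obtain ⟨τ, rfl⟩ := exists_ext W σ
      rcases h3 τ with h8 | h8
      · exact absurd (resM_inj W (σ := toMid W τ) (τ := toMid W τ0) h8) hσ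
      · exact h8)
  exact (map_eq_zero (toMid W τ0)).1 h4

variable (L) in
/-- the number of different coordinates in the factors in `Q` on a general fibre -/
noncomputable def rk (Q : Finset (Fin s)) : ℕ :=
  Module.finrank L (IntermediateField.adjoin L {z : M | ∃ i ∈ Q, z ∈ W i})

theorem rk_univ : rk L W Finset.univ = Module.finrank L (mid L W) := by
  unfold rk mid
  have h : {z : M | ∃ i ∈ (Finset.univ : Finset (Fin s)), z ∈ W i} = {z : M | ∃ i, z ∈ W i} := by
    ext z
    simp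
  rw [h]

/-- the degree of the composita inside `mid` -/
theorem rk_mid (Q : Finset (Fin s)) :
    rk L W Q = Module.finrank L (IntermediateField.adjoin L
      {z : mid L W | ∃ i ∈ Q, (z : M) ∈ W i}) := by
  unfold rk
  have h1 : (IntermediateField.adjoin L {z : mid L W | ∃ i ∈ Q, (z : M) ∈ W i}).map
      (mid L W).val = IntermediateField.adjoin L {z : M | ∃ i ∈ Q, z ∈ W i} := by
    rw [IntermediateField.adjoin_map]
    congr 1
    ext z
    constructor
    · rintro ⟨y, ⟨i, hi, hy⟩, rfl⟩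
      exact ⟨i, hi, hy⟩
    · rintro ⟨i, hi, hz⟩
      exact ⟨⟨z, le_mid L W i hz⟩, ⟨i, hi, hz⟩, rfl⟩
  rw [← h1]
  exact (IntermediateField.equivMap (IntermediateField.adjoin L
    {z : mid L W | ∃ i ∈ Q, (z : M) ∈ W i}) (mid L W).val).toLinearEquiv.finrank_eq.symm

/-- **Hall's condition implies the covering condition.** -/
theorem cov_of_hall {m : Fin s → ℕ} (hm1 : ∀ i, 1 ≤ m i) {Ω : Type} [Field Ω] [IsAlgClosed Ω]
    [Algebra k Ω] [Algebra L Ω] [IsScalarTower k L Ω] (B : Finset (Fin s))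
    (hB : ∀ i ∈ B, rk L W {i} ≤ m i)
    (hQ : ∀ Q : Finset (Fin s), Disjoint Q B →
      rk L W Finset.univ ≤ rk L W Qᶜ * (1 + ∑ j ∈ Q, (m j - 1))) :
    Cov (L := L) W Ω m := by
  classical
  have hchar : CharZero L := charZero_of_injective_algebraMap (algebraMap k L).injective
  let _ : Fintype (mid L W →ₐ[L] Ω) := Fintype.ofFinite _
  let _ : Fintype (M →ₐ[L] Ω) := Fintype.ofFinite _
  obtain ⟨τ0⟩ : Nonempty (M →ₐ[L] Ω) := ⟨IsAlgClosed.lift⟩
  obtain ⟨K, hK0, hKcap, hKB, hkill⟩ := assign_one (fun i => resM W i) (toMid W τ0) B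
    (fun i => m i - 1) (fun Q hQB => by
    have h1 := card_fix (L := L) (M := mid L W) (Ω := Ω)
      {z : mid L W | ∃ i ∈ Qᶜ, (z : M) ∈ W i}
      (insert (toMid W τ0) (Finset.univ.filter fun σ => σ ≠ toMid W τ0 ∧
        ∀ i, i ∉ Q → resM W i σ = resM W i (toMid W τ0))) (toMid W τ0) (by
        intro σ hσ z hz
        rcases Finset.mem_insert.1 hσ with rfl | hσ
        · rfl
        · obtain ⟨j, hj, hzj⟩ := hz
          exact congrArg (fun φ : W j →ₐ[k] Ω => φ ⟨z, hzj⟩)
            ((Finset.mem_filter.1 hσ).2.2 j (Finset.mem_compl.1 hj)))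
    rw [Finset.card_insert_of_notMem (by simp)] at h1
    have h3 := hQ Q hQB
    have h4 := Module.finrank_mul_finrank L (IntermediateField.adjoin L
      {z : mid L W | ∃ i ∈ Qᶜ, (z : M) ∈ W i}) (mid L W)
    rw [← rk_mid, ← rk_univ] at h4
    have h5 : 0 < rk L W Qᶜ := Module.finrank_pos
    rw [← h4] at h3
    have h6 := Nat.le_of_mul_le_mul_left h3 h5
    omega)
  refine ⟨τ0, K, fun i => hK0 i, fun i => ?_, fun τ => ?_⟩
  · by_cases hiB : i ∈ B
    · have h4 : (K i).card + 1 = (Finset.univ.image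
          (resM W i : (mid L W →ₐ[L] Ω) → (W i →ₐ[k] Ω))).card := by
        rw [hKB i hiB]
        exact Finset.card_erase_add_one (Finset.mem_image_of_mem _ (Finset.mem_univ _))
      have h5 : Finset.univ.image (resM W i : (mid L W →ₐ[L] Ω) → (W i →ₐ[k] Ω)) ⊆
          Finset.univ.image (resV W i : (M →ₐ[L] Ω) → (W i →ₐ[k] Ω)) := by
        intro φ hφ
        obtain ⟨σ, -, rfl⟩ := Finset.mem_image.1 hφ
        obtain ⟨τ, rfl⟩ := exists_ext W σ
        exact Finset.mem_image.2 ⟨τ, Finset.mem_univ _, rfl⟩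
      have h6 := (Finset.card_le_card h5).trans (card_resV (L := L) (Ω := Ω) W i)
      have h7 : rk L W {i} = Module.finrank L (IntermediateField.adjoin L (W i : Set M)) := by
        unfold rk
        have h8 : {z : M | ∃ j ∈ ({i} : Finset (Fin s)), z ∈ W j} = (W i : Set M) := by
          ext z
          simp
        rw [h8]
      have h8 := hB i hiB
      rw [h4]
      omega
    · have h2 := hKcap i hiB
      have h3 := hm1 i
      omega
  · by_cases h : toMid W τ = toMid W τ0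
    · exact Or.inl fun i => by
        rw [← resM_toMid, ← resM_toMid, h]
    · exact Or.inr (hkill _ h)

end

end Q36.GW
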