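import Pool.Agent.Q36.GV.Uw

/-!
Products with a curve factor: the relative trace.
-/

set_option autoImplicit false
set_option linter.overlappingInstances false
set_option linter.unusedSectionVars false

open Polynomial FF IsDedekindDomain IntermediateField
open Pool.Agent.W602.GT Pool.Agent.W603.LV Pool.Agent.W619.PQ Pool.Agent.W619.PL
  Pool.Agent.W619.TW Pool.Agent.W619.X Pool.Agent.W619.Y Q36.PT Q36.SD Q36.HB Q36.GV

namespace Q36.GW

section

variable {k M : Type} [Field k] [CharZero k] [Field M] [Algebra k M]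
  {s : ℕ} {d : Fin s → ℕ} (F : Fin (s + 1) → IntermediateField k M)

/-- dimensions of the factors -/
abbrev dims (c : ℕ) (d : Fin s → ℕ) : Fin (s + 1) → ℕ := Fin.cons c d

/-- the coordinate of the curve -/
def cidx (d : Fin s → ℕ) : Fin (∑ i, dims 1 d i) :=
  finSigmaFinEquiv (⟨0, (0 : Fin 1)⟩ : (i : Fin (s + 1)) × Fin (dims 1 d i))

/-- the product of the factors different from the curve -/
def base : IntermediateField k M := ⨆ i : Fin s, F i.succ

theorem le_base (i : Fin s) : F i.succ ≤ base F := le_iSup (fun i : Fin s => F i.succ) i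

theorem coords_mk {e : Fin (s + 1) → ℕ} (t : ∀ i, Fin (e i) → F i) (i : Fin (s + 1))
    (l : Fin (e i)) : coords F t (finSigmaFinEquiv ⟨i, l⟩) = (t i l : M) := by
  unfold coords
  rw [Equiv.symm_apply_apply]

/-- algebraic over the coordinates -/
theorem base_alg (t : ∀ i, Fin (dims 1 d i) → F i) (ht : ∀ i, IsTranscendenceBasis k (t i))
    (z : M) (hz : z ∈ base F) :
    IsAlgebraic (IntermediateField.adjoin k (coords F t '' {b | b ≠ cidx d})) z := by
  classical
  set S := IntermediateField.adjoin k (coords F t '' {b | b ≠ cidx d}) with hS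
  have hmem : ∀ (i : Fin s) l, (t i.succ l : M) ∈ S := by
    intro i l
    refine subset_adjoin k _ ⟨finSigmaFinEquiv ⟨i.succ, l⟩, ?_, coords_mk F t _ _⟩
    intro h
    have h1 := finSigmaFinEquiv.injective h
    have h2 : i.succ = (0 : Fin (s + 1)) := congrArg Sigma.fst h1
    exact Fin.succ_ne_zero i h2
  have hle : base F ≤ (algebraicClosure S M).restrictScalars k := by
    refine iSup_le fun i z hz => ?_
    rw [mem_restrictScalars, mem_algebraicClosure_iff]
    have h2 := (ht i.succ).isAlgebraic_field.isAlgebraic (⟨z, hz⟩ : F i.succ)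
    have hle : adjoin k (Set.range (t i.succ)) ≤ S.comap (F i.succ).val := by
      rw [adjoin_le_iff]
      rintro _ ⟨l, rfl⟩
      exact hmem i l
    let f : adjoin k (Set.range (t i.succ)) →+* S :=
      (((F i.succ).val : F i.succ →+* M).comp
        (algebraMap (adjoin k (Set.range (t i.succ))) (F i.succ))).codRestrict
        S fun y => hle y.2
    exact h2.ringHom_of_comp_eq f ((F i.succ).val : F i.succ →+* M) f.injective (by ext y; rfl)
  have h1 := hle hz
  rw [mem_restrictScalars, mem_algebraicClosure_iff] at h1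
  exact h1

/-- `M` is the function field of the product of a curve and the base -/
theorem cur_base [hF0 : IsFF k (F 0)] (hM : Algebra.trdeg k M = (∑ i, dims 1 d i : ℕ))
    (hsup : ⨆ i, F i = ⊤) (hd : ∀ i, Algebra.trdeg k (F i) = dims 1 d i) :
    Cur (base F) (F 0) := by
  classical
  refine ⟨hF0, ?_, ?_⟩
  · intro x hx halg
    have hb : ∀ i, ∃ y : Fin (dims 1 d i) → F i, IsTranscendenceBasis k y := fun i => by
      obtain ⟨y, -, hy, -⟩ := Pool.Agent.Y172.exists_crd (hd i)
      exact ⟨y, hy⟩
    choose y hy using hb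
    have hx1 : IsTranscendenceBasis k (fun _ : Fin 1 => x) := by
      have h1 : AlgebraicIndependent k (fun _ : Fin 1 => x) := by
        rw [algebraicIndependent_unique_type_iff]
        exact hx
      refine h1.isTranscendenceBasis_of_trdeg_le_of_finite ?_
      rw [IsFF.trdeg (k := k) (K := F 0)]
      simp
    obtain ⟨t, ht0, ht⟩ : ∃ t : ∀ i, Fin (dims 1 d i) → F i, t 0 (0 : Fin 1) = x ∧
        ∀ i, IsTranscendenceBasis k (t i) := by
      refine ⟨Fin.cons (α := fun i => Fin (dims 1 d i) → F i) (fun _ => x)
        (fun i => y i.succ), rfl, fun i => ?_⟩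
      refine Fin.cases ?_ (fun i => ?_) i
      · exact hx1
      · exact hy i.succ
    have hbt : IsTranscendenceBasis k (coords F t) :=
      coords_basis F hM (by
        rw [hsup]
        exact ⟨fun z => isAlgebraic_algebraMap (⟨z, trivial⟩ : (⊤ : IntermediateField k M))⟩) t ht
    have h1 := hbt.1.transcendental_adjoin (s := {b | b ≠ cidx d})
      (i := cidx d) (by simp)
    apply h1
    set T : Set M := coords F t '' {b | b ≠ cidx d} with hT
    open scoped algebraAdjoinAdjoin in
    rw [IsFractionRing.isAlgebraic_iff (Algebra.adjoin k T) (IntermediateField.adjoin k T) M]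
    rw [show coords F t (cidx d) = ((t 0 (0 : Fin 1) : F 0) : M) from coords_mk F t 0 (0 : Fin 1)]
    let S := IntermediateField.adjoin k T
    let A : IntermediateField S M := algebraicClosure S M
    have hMA : ∀ z ∈ base F, z ∈ A := by
      intro z hz
      rw [mem_algebraicClosure_iff]
      exact base_alg F t ht z hz
    let f : base F →+* A := (algebraMap (base F) M).codRestrict A fun z => hMA z z.2
    have htA : IsAlgebraic A ((t 0 (0 : Fin 1) : F 0) : M) := by
      have h2 : ((t 0 (0 : Fin 1) : F 0) : M) = (x : M) := by rw [← ht0]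
      rw [h2]
      exact halg.ringHom_of_comp_eq f (RingHom.id M) f.injective (by ext z; rfl)
    exact htA.restrictScalars S
  · rw [eq_top_iff, ← hsup]
    refine iSup_le fun i => ?_
    refine Fin.cases ?_ (fun i => ?_) i
    · exact le_sup_right
    · exact (le_base F i).trans le_sup_left

end

section

variable {k L M : Type} [Field k] [CharZero k] [IsAlgClosed k] [Field L] [Field M]
  [Algebra k L] [Algebra k M] [Algebra L M] [IsScalarTower k L M] [FiniteDimensional L M]
  {s : ℕ} {d : Fin s → ℕ} (F : Fin (s + 1) → IntermediateField k M)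

/-- **The genus of the generic fibre over the product of the other factors.** -/
theorem genus_rel [hF0 : IsFF k (F 0)] [∀ i, Algebra.EssFiniteType k (F i)]
    (hM : Algebra.trdeg k M = (∑ i, dims 1 d i : ℕ))
    (hsup : ⨆ i, F i = ⊤) (hd : ∀ i, Algebra.trdeg k (F i) = dims 1 d i)
    (hbase : ∀ z ∈ base F, z ∈ Set.range (algebraMap L M))
    (t : ∀ i, Fin (dims 1 d i) → F i) (ht : ∀ i, IsTranscendenceBasis k (t i))
    {D0 : Derivation k (F 0) (F 0)} (hD0 : D0 (t 0 (0 : Fin 1)) = 1)
    (E : Fin (∑ i, dims 1 d i) → Derivation k L L)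
    (E' : Fin (∑ i, dims 1 d i) → Derivation k M M)
    (hE' : ∀ a z, E' a (algebraMap L M z) = algebraMap L M (E a z))
    (hJ : (Matrix.of fun a b => E' a (coords F t b)).det ≠ 0)
    (hrel : ∀ f : F 0, RegDiff D0 f →
      Algebra.trace L M ((Matrix.of fun a b => E' a (coords F t b)).det * (f : M)) = 0) :
    GenusZeroOver ((base F).comap (IsScalarTower.toAlgHom k L M)) := by
  classical
  set J := (Matrix.of fun a b => E' a (coords F t b)).det with hJe
  have hC : Cur (base F) (F 0) := cur_base F hM hsup hd
  have hbt : IsTranscendenceBasis k (coords F t) :=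
    coords_basis F hM (by
      rw [hsup]
      exact ⟨fun z => isAlgebraic_algebraMap (⟨z, trivial⟩ : (⊤ : IntermediateField k M))⟩) t ht
  have hbc : ∀ b, b ≠ cidx d → coords F t b ∈ base F := by
    intro b hb
    obtain ⟨⟨i, l⟩, rfl⟩ := (finSigmaFinEquiv (n := dims 1 d)).surjective b
    rw [coords_mk]
    revert l
    refine Fin.cases ?_ (fun i => ?_) i
    · intro l hb
      exfalso
      apply hb
      have h1 : ∀ l : Fin 1, finSigmaFinEquiv
          (⟨0, l⟩ : (i : Fin (s + 1)) × Fin (dims 1 d i)) = cidx d := by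
        intro l
        rw [Subsingleton.elim l 0]
        rfl
      exact h1 l
    · intro l _
      exact le_base F i (t i.succ l).2
  have htL : ∀ b, ∃ z : L, b ≠ cidx d → algebraMap L M z = coords F t b := by
    intro b
    by_cases hb : b = cidx d
    · exact ⟨0, fun h => absurd hb h⟩
    · obtain ⟨z, hz⟩ := hbase _ (hbc b hb)
      exact ⟨z, fun _ => hz⟩
  choose tL htL using htL
  let TL : Matrix (Fin (∑ i, dims 1 d i)) (Fin (∑ i, dims 1 d i)) L :=
    Matrix.of fun a b => E a (tL b)
  let c : Fin (∑ i, dims 1 d i) → L := fun a => TL.adjugate (cidx d) a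
  let D : Derivation k L L := ∑ a, c a • E a
  let D' : Derivation k M M := ∑ a, algebraMap L M (c a) • E' a
  have hD'e : ∀ z, D' z = ∑ a, algebraMap L M (c a) * E' a z := fun z =>
    Pool.Agent.Y172.sum_smul_apply _ _ _ _
  have hDD : ∀ z, D' (algebraMap L M z) = algebraMap L M (D z) := by
    intro z
    rw [hD'e]
    have h1 : D z = ∑ a, c a * E a z := Pool.Agent.Y172.sum_smul_apply _ _ _ _
    rw [h1, map_sum]
    refine Finset.sum_congr rfl fun a _ => ?_
    rw [map_mul, hE']
  have hcr : ∀ v : Fin (∑ i, dims 1 d i) → M, ∑ a, algebraMap L M (c a) * v a =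
      ((TL.map (algebraMap L M)).updateCol (cidx d) v).det := by
    intro v
    rw [← Matrix.cramer_apply, Matrix.cramer_eq_adjugate_mulVec]
    have h1 : (TL.map (algebraMap L M)).adjugate = TL.adjugate.map (algebraMap L M) :=
      ((algebraMap L M).map_adjugate TL).symm
    rw [h1]
    rfl
  have hDtb : ∀ b, b ≠ cidx d → D' (coords F t b) = 0 := by
    intro b hb
    rw [hD'e, hcr]
    refine Matrix.det_zero_of_column_eq hb fun a => ?_
    rw [Matrix.updateCol_ne hb, Matrix.updateCol_self, Matrix.map_apply, ← htL b hb, hE']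
    rfl
  have hDti : D' (coords F t (cidx d)) = J := by
    rw [hD'e, hcr, hJe]
    congr 1
    ext a b
    by_cases hb : b = cidx d
    · rw [hb, Matrix.updateCol_self]
      rfl
    · rw [Matrix.updateCol_ne hb, Matrix.map_apply]
      change algebraMap L M (E a (tL b)) = E' a (coords F t b)
      rw [← hE', htL b hb]
  have hDE : ∀ z ∈ base F, D' z = 0 := by
    intro z hz
    have h1 := base_alg F t ht z hz
    have hle : IntermediateField.adjoin k (coords F t '' {b | b ≠ cidx d}) ≤ kerD D' := by
      rw [adjoin_le_iff]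
      rintro _ ⟨b, hb, rfl⟩
      exact hDtb b hb
    let f : IntermediateField.adjoin k (coords F t '' {b | b ≠ cidx d}) →+* kerD D' :=
      (IntermediateField.inclusion hle : _ →+* _)
    have h2 : IsAlgebraic (kerD D') z :=
      h1.ringHom_of_comp_eq f (RingHom.id M) f.injective (by ext y; rfl)
    exact der_alg (kerD D') D' (fun z hz => hz) h2
  have hc0 : coords F t (cidx d) = ((t 0 (0 : Fin 1) : F 0) : M) := coords_mk F t 0 (0 : Fin 1)
  have hD0ne : D0 ≠ 0 := by
    rintro rfl
    exact zero_ne_one hD0
  have ht0 : Transcendental k (t 0 (0 : Fin 1)) := (ht 0).1.transcendental (0 : Fin 1)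
  refine genus_zero_over hC hbase hD0ne ht0 D D' hDD hDE ?_ (coords F t) hbt (cidx d) hc0 hbc ?_
  · rw [← hc0, hDti]
    exact hJ
  · intro f hf
    rw [← hc0, hDti, hD0]
    have h1 := hrel f hf
    have h2 : ((1 : F 0) : M) = 1 := rfl
    rw [h2, div_one, mul_comm]
    exact h1

end

end Q36.GW
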