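import Pool.Agent.Q36.GW.As

/-!
Products with a curve factor: the equivalences.
-/

set_option autoImplicit false
set_option linter.overlappingInstances false
set_option linter.unusedSectionVars false

open Polynomial FF IsDedekindDomain IntermediateField
open Pool.Agent.W602.GT Pool.Agent.W603.LV Pool.Agent.W619.PQ Pool.Agent.W619.PL
  Pool.Agent.W619.TW Pool.Agent.W619.X Pool.Agent.W619.Y Q36.PT Q36.SD Q36.HB Q36.GV

namespace Q36.GW

section

variable {k L M : Type} [Field k] [CharZero k] [IsAlgClosed k] [Field L] [Field M]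
  [Algebra k L] [Algebra k M] [Algebra L M] [IsScalarTower k L M] [FiniteDimensional L M]
  {s : ℕ} {d : Fin s → ℕ}
  (F : Fin (s + 1) → IntermediateField k M) [∀ i, Algebra.EssFiniteType k (F i)]

/-- a field of transcendence degree zero -/
theorem eq_bot_of_trdeg (K : IntermediateField k M) (h : Algebra.trdeg k K = (0 : ℕ)) : K = ⊥ := by
  have h1 : Algebra.IsAlgebraic k K := by
    rw [← trdeg_eq_zero_iff]
    exact_mod_cast h
  rw [eq_bot_iff]
  intro z hz
  rw [IntermediateField.mem_bot]
  have h2 : Algebra.IsIntegral k K := h1.isIntegral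
  obtain ⟨c, hc⟩ := (IsAlgClosed.algebraMap_bijective_of_isIntegral (k := k) (K := K)).2 ⟨z, hz⟩
  exact ⟨c, congrArg Subtype.val hc⟩

/-- the constants are canonical forms on a point -/
theorem one_canF {K : Type} [Field K] [Algebra k K] (D : Fin 0 → Derivation k K K) :
    (1 : K) ∈ CanF k 0 D := by
  refine ⟨fun _ => 1, fun A D => ?_, fun u _ D _ => ?_, rfl⟩
  · simp
  · right
    rw [u.ord_one]

/-- **The geometric genus is positive**, product of varieties. -/
theorem genus_point [Algebra.EssFiniteType k L] (hM : Algebra.trdeg k M = (∑ i, dims 0 d i : ℕ))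
    (hsup : ⨆ i, F i = ⊤)
    (hd : ∀ i, Algebra.trdeg k (F i) = dims 0 d i) {m : Fin s → ℕ}
    (hV : ∀ i : Fin s, CanSep k (F i.succ) (d i) (m i)) {Ω : Type} [Field Ω] [IsAlgClosed Ω]
    [Algebra k Ω] [Algebra L Ω] [IsScalarTower k L Ω]
    (hcov : Cov (L := L) (fun i : Fin s => F i.succ) Ω m) :
    PlurigenusPos k L (∑ i, dims 0 d i) 1 := by
  classical
  by_contra hneg
  have hn : Algebra.trdeg k L = (∑ i, dims 0 d i : ℕ) := trdeg_below (K := M) hM
  obtain ⟨y, E, hy, hE⟩ := Pool.Agent.Y172.exists_crd (k := k) (K := L) hn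
  choose E' hE' using fun i => Pool.Agent.Y172.exists_lift (L := M) hn (E i)
  have hEd := Pool.Agent.Y172.lift_dual hE hE'
  choose t D ht hD using fun i => Pool.Agent.Y172.exists_crd (hd i)
  have hbt : IsTranscendenceBasis k (coords F t) :=
    coords_basis F hM (alg_of_sup' F hsup) t ht
  have hJ : (Matrix.of fun a b => E' a (coords F t b)).det ≠ 0 := jac_ne hbt hEd
  have h1 := rel_zero F hM hd (fun i => hV i) hcov hneg t ht hD E E' hE' (one_canF (D 0))
  -- the intermediate field is everything
  have hbot : F 0 = ⊥ := eq_bot_of_trdeg (F 0) (hd 0)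
  have htop : mid L (fun i : Fin s => F i.succ) = ⊤ := by
    have h2 : (⊤ : IntermediateField k M) ≤
        (mid L fun i : Fin s => F i.succ).restrictScalars k := by
      rw [← hsup]
      refine iSup_le fun i => ?_
      refine Fin.cases ?_ (fun i => ?_) i
      · rw [hbot]
        exact bot_le
      · intro z hz
        exact le_mid L (fun i : Fin s => F i.succ) i hz
    rw [eq_top_iff]
    intro z _
    exact h2 (IntermediateField.mem_top)
  have hmem : (Matrix.of fun a b => E' a (coords F t b)).det * ((1 : F 0) : M) ∈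
      mid L (fun i : Fin s => F i.succ) := by
    rw [htop]
    exact IntermediateField.mem_top
  have h3 := Algebra.trace_algebraMap_of_basis
    (Module.finBasis (mid L fun i : Fin s => F i.succ) M)
    (⟨_, hmem⟩ : mid L fun i : Fin s => F i.succ)
  have h4 : algebraMap (mid L fun i : Fin s => F i.succ) M ⟨_, hmem⟩ =
    (Matrix.of fun a b => E' a (coords F t b)).det * ((1 : F 0) : M) := rfl
  rw [h4, h1] at h3
  have hchar : CharZero (mid L fun i : Fin s => F i.succ) :=
    charZero_of_injective_algebraMap (algebraMap k _).injective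
  have hpos : 0 < Module.finrank (mid L fun i : Fin s => F i.succ) M := Module.finrank_pos
  rw [Fintype.card_fin, nsmul_eq_mul] at h3
  rcases mul_eq_zero.1 h3.symm with h5 | h5
  · exact hpos.ne' (Nat.cast_eq_zero.1 h5)
  · have h6 := congrArg Subtype.val h5
    change (Matrix.of fun a b => E' a (coords F t b)).det * ((1 : F 0) : M) = 0 at h6
    have h7 : ((1 : F 0) : M) = 1 := rfl
    rw [h7, mul_one] at h6
    exact hJ h6

theorem sum_dims (c : ℕ) : ∑ i, dims c d i = c + ∑ i, d i := by
  rw [Fin.sum_univ_succ]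
  rfl

/-- uniruledness of the fibrations with generic fibre of genus zero -/
theorem uniruled_curve [hF0 : IsFF k (F 0)] (hM : Algebra.trdeg k M = (∑ i, dims 1 d i : ℕ))
    (hsup : ⨆ i, F i = ⊤)
    (hd : ∀ i, Algebra.trdeg k (F i) = dims 1 d i)
    (hgz : GenusZeroOver (baseIn L fun i : Fin s => F i.succ)) :
    IsUniruled k L (∑ i, dims 1 d i) := by
  have hessM : Algebra.EssFiniteType k M := ess_supW F hsup
  have hessL : Algebra.EssFiniteType k L := ess_below (K := M)
  have hn : Algebra.trdeg k L = (∑ i, dims 1 d i : ℕ) := trdeg_below (K := M) hM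
  have hess1 : Algebra.EssFiniteType k (mid L fun i : Fin s => F i.succ) := ess_mid _
  have hto := towM (k := k) (L := L) (M := M) (mid L fun i : Fin s => F i.succ)
  have hn1 : Algebra.trdeg k (mid L fun i : Fin s => F i.succ) = (∑ i, dims 1 d i : ℕ) :=
    Pool.Agent.Y172.trdeg_up (K := L) hn
  refine uniruled_img (M := mid L fun i : Fin s => F i.succ) ?_
  refine uniruled_of_genusZero hn1 _ ?_ hgz
  -- the transcendence degree of the base
  have hC := cur_base F hM hsup hd
  have hMc : CharZero (base F) := charZero_of_injective_algebraMap (algebraMap k _).injective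
  have h1 := trdeg_add_eq k (base F) (A := M)
  rw [hC.isFF.trdeg, hM] at h1
  have hle : ∀ z ∈ base F, z ∈ mid L fun i : Fin s => F i.succ := by
    intro z hz
    have h1 : base F ≤ (mid L fun i : Fin s => F i.succ).restrictScalars k :=
      iSup_le fun i z hz => le_mid L (fun i : Fin s => F i.succ) i hz
    exact h1 hz
  let ef : (baseIn L fun i : Fin s => F i.succ) →ₐ[k] base F :=
    { toFun := fun z => ⟨((z : mid L fun i : Fin s => F i.succ) : M), z.2⟩
      map_one' := Subtype.ext rfl
      map_mul' := fun a b => Subtype.ext rfl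
      map_zero' := Subtype.ext rfl
      map_add' := fun a b => Subtype.ext rfl
      commutes' := fun c => Subtype.ext rfl }
  have hefb : Function.Bijective ef := by
    refine ⟨ef.toRingHom.injective, fun z => ⟨⟨⟨(z : M), hle _ z.2⟩, z.2⟩, rfl⟩⟩
  have h2 := (AlgEquiv.ofBijective ef hefb).trdeg_eq
  rw [h2, h1]

end

section

variable {k L M : Type} [Field k] [CharZero k] [IsAlgClosed k] [Field L] [Field M]
  [Algebra k L] [Algebra k M] [Algebra L M] [IsScalarTower k L M] [FiniteDimensional L M]
  {s : ℕ} {d : Fin s → ℕ} (C : IntermediateField k M) (W : Fin s → IntermediateField k M)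
  [hessC : Algebra.EssFiniteType k C] [hess : ∀ i, Algebra.EssFiniteType k (W i)]

/-- **The equivalences.** -/
theorem tfaeCW {c : ℕ} (hc : c ≤ 1) (hC : Algebra.trdeg k C = c)
    (hd : ∀ i, Algebra.trdeg k (W i) = d i) (hM : Algebra.trdeg k M = (c + ∑ i, d i : ℕ))
    (hsup : C ⊔ ⨆ i, W i = ⊤) {m : Fin s → ℕ}
    {Ω : Type} [Field Ω] [IsAlgClosed Ω] [Algebra k Ω] [Algebra L Ω] [IsScalarTower k L Ω]
    (hW : (∀ i, ¬ IsUniruled k (W i) (d i)) → ∀ i, CanSep k (W i) (d i) (m i))
    (hcov : Cov (L := L) W Ω m) :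
    List.TFAE [¬ PlurigenusPos k L (c + ∑ i, d i) 1, KodairaNeg k L (c + ∑ i, d i),
      ¬ IsPsef k L (c + ∑ i, d i) (fun _ => False), NumNeg k L (c + ∑ i, d i) (fun _ => False),
      IsUniruled k L (c + ∑ i, d i),
      (∃ i, IsUniruled k (W i) (d i)) ∨ (c = 1 ∧ GenusZeroOver (baseIn L W))] := by
  classical
  let F : Fin (s + 1) → IntermediateField k M := Fin.cons C W
  have hessF : ∀ i, Algebra.EssFiniteType k (F i) := fun i => by
    refine Fin.cases ?_ (fun i => ?_) i
    · exact hessC
    · exact hess i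
  have hdF : ∀ i, Algebra.trdeg k (F i) = dims c d i := fun i => by
    refine Fin.cases ?_ (fun i => ?_) i
    · exact hC
    · exact hd i
  have hsupF : ⨆ i, F i = ⊤ := by
    rw [eq_top_iff, ← hsup]
    refine sup_le (le_iSup F 0) (iSup_le fun i => le_iSup F i.succ)
  have hMF : Algebra.trdeg k M = (∑ i, dims c d i : ℕ) := by
    rw [sum_dims]
    exact hM
  have hessM : Algebra.EssFiniteType k M := ess_supW F hsupF
  have hessL : Algebra.EssFiniteType k L := ess_below (K := M)
  have hn : Algebra.trdeg k L = (c + ∑ i, d i : ℕ) := trdeg_below (K := M) hM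
  have hFFC : c = 1 → IsFF k C := fun h => by
    subst h
    obtain ⟨y, -, hy, -⟩ := Pool.Agent.Y172.exists_crd hC
    refine IsFF.of_finite (f := y 0) (hy.1.transcendental 0) ?_
    have h1 := hy.isAlgebraic_field
    have h2 : Set.range y = {y 0} := by
      rw [Set.range_unique]
      rfl
    rw [h2] at h1
    have h3 : Algebra.EssFiniteType k⟮y 0⟯ C := Algebra.EssFiniteType.of_comp k _ _
    exact Algebra.finite_of_essFiniteType_of_isAlgebraic
  set n := c + ∑ i, d i with hne
  tfae_have 1 → 6 := by
    intro h1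
    by_contra h2
    push Not at h2
    apply h1
    rw [hne, ← sum_dims]
    rcases Nat.le_one_iff_eq_zero_or_eq_one.1 hc with h | h
    · subst h
      exact genus_point F hMF hsupF hdF (fun i => hW h2.1 i) hcov
    · subst h
      have hF0 : IsFF k (F 0) := hFFC rfl
      exact genus_curve F hMF hsupF hdF (fun i => hW h2.1 i) hcov (h2.2 rfl)
  tfae_have 6 → 5 := by
    rintro (⟨i, hi⟩ | ⟨h, hgz⟩)
    · rw [hne, ← sum_dims]
      exact uniruled_prodV F hdF hMF hsupF ⟨i.succ, hi⟩
    · subst h
      have hF0 : IsFF k (F 0) := hFFC rfl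
      rw [hne, ← sum_dims]
      exact uniruled_curve F hMF hsupF hdF hgz
  tfae_have 5 → 4 := fun h => (uniruled_neg n hn h).2
  tfae_have 5 → 3 := fun h => (uniruled_neg n hn h).1
  tfae_have 3 → 2 := fun h => kodairaNeg_of_not_eff.1 fun h3 => h (psef_of_eff h3)
  tfae_have 2 → 1 := fun h h1 => not_neg_of_pos le_rfl h1 h
  tfae_have 4 → 1 := by
    intro h1 h2
    obtain ⟨ω, h3, h4, D, hD⟩ := h2
    obtain ⟨m0, hm0⟩ := h1 {1}
    refine hm0 (1 * m0) (by omega) ?_
    refine ⟨fun _ => fun D => ω D ^ m0, ?_, fun _ => ⟨?_, ?_, ?_⟩⟩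
    · refine LinearIndependent.of_subsingleton 0 ?_
      intro h5
      exact pow_ne_zero m0 hD (congrFun h5 D)
    · intro A D
      change ω _ ^ m0 = _
      rw [h3 A D, mul_pow, ← pow_mul]
    · intro v hv _ D hD
      rcases h4 v hv D hD with h5 | h5
      · change Dom v {1} 1 (ω D ^ m0)
        rw [h5]
        rcases Nat.eq_zero_or_pos m0 with rfl | h6
        · exact Or.inr ⟨1, by simp, one_ne_zero, by rw [pow_zero, v.ord_one]; simp⟩
        · exact Or.inl (zero_pow (by omega))
      · exact Or.inr ⟨1, by simp, one_ne_zero, by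
          rw [v.ord_pow, v.ord_one]
          have : (0 : ℤ) ≤ m0 * v.ord (ω D) := mul_nonneg (by positivity) h5
          simpa using this⟩
    · intro v _ hB
      exact absurd hB id
  tfae_finish

end

end Q36.GW
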